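import Pool.Agent.H853.OP.Tan

/-!
# The witness given by the Mumford-Tate conjecture at one prime
-/

set_option autoImplicit false
set_option linter.unusedSectionVars false

namespace Pool.Agent.H853.OP

open Module Polynomial Pool.Agent.Y114.TF Pool.Agent.Y114.RM Pool.Agent.H853.OS Pool.Agent.H853.CC
  Pool.Agent.H853.G2 Pool.Agent.W522.C

/-- An automorphism of a field `Ω` induces an automorphism of each normal subfield `L` of `ℂ`, for each
embedding of `L` in `Ω`. -/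
theorem exists_restrict (L : IntermediateField ℚ ℂ)
    (hL : @IsGalois ℚ _ L _ (IntermediateField.algebra' L)) {Ω : Type*} [Field Ω] [Algebra ℚ Ω]
    (j : L →+* Ω) (σ : Ω ≃+* Ω) : ∃ τ : AG L, ∀ x, σ (j x) = j (τ x) := by
  let _ : Algebra ℚ L := IntermediateField.algebra' L
  have _ : IsGalois ℚ L := hL
  let _ : Algebra L Ω := j.toAlgebra
  have _ : IsScalarTower ℚ L Ω := IsScalarTower.of_algebraMap_eq fun x => by
    have : (algebraMap L Ω).comp (algebraMap ℚ L) = algebraMap ℚ Ω := Subsingleton.elim _ _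
    rw [← this]
    rfl
  let σ' : Ω ≃ₐ[ℚ] Ω := AlgEquiv.ofRingEquiv (f := σ) fun x => by
    have : (σ : Ω →+* Ω).comp (algebraMap ℚ Ω) = algebraMap ℚ Ω := Subsingleton.elim _ _
    exact congrArg (fun f : ℚ →+* Ω => f x) this
  refine ⟨σ'.restrictNormal L, fun x => ?_⟩
  exact (σ'.restrictNormal_commutes L x).symm

theorem exists_embedding (L : IntermediateField ℚ ℂ) (hL : FiniteDimensional ℚ L) (Ω : Type*)
    [Field Ω] [CharZero Ω] [IsAlgClosed Ω] : Nonempty (L →+* Ω) := by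
  let _ : Algebra ℚ L := IntermediateField.algebra' L
  have _ : Algebra.IsAlgebraic ℚ L := Algebra.IsAlgebraic.of_finite ℚ L
  exact ⟨(IsAlgClosed.lift : L →ₐ[ℚ] Ω).toRingHom⟩

variable {Γ : Type} [Group Γ] [TopologicalSpace Γ] [IsTopologicalGroup Γ] [CompactSpace Γ]
  {ι : Type} [Fintype ι] [DecidableEq ι]
  {n : ι → ℕ} {ρ : ∀ (ℓ : ℕ) [Fact ℓ.Prime], Reps Γ n ℓ}

/-- The Frobenius elements given by the types. -/
theorem exists_elements {ℓ : ℕ} [Fact ℓ.Prime] (hρ : Conts (ρ ℓ)) (hD : DenseAt ρ ℓ)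
    (𝔤 : EndSpace n ℓ) (hMT : LieMumfordTate (ρ ℓ) 𝔤)
    (φ : AlgebraicClosure ℚ_[ℓ] ≃ₐ[ℚ_[ℓ]] AlgebraicClosure ℚ_[ℓ]) (hT : Types 𝔤 φ)
    (a : (Σ i, Fin (n i)) ⊕ (Σ i, Fin (n i))) : ∃ e : Element ρ,
      (∀ i d (hd : d < n i), a = Sum.inl ⟨i, ⟨d, hd⟩⟩ → 0 < d → Neat ℂ (e.P i) ∧
        ∀ S : Finset (AlgebraicClosure ℚ_[ℓ]),
          StableRoots (Subgroup.zpowers φ) ((e.P i).map (algebraMap ℚ ℚ_[ℓ])) S → S.card ≠ d) ∧
      (∀ i d (hd : d < n i), a = Sum.inr ⟨i, ⟨d, hd⟩⟩ → (d + 1).Prime → d + 1 ∣ n i →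
        Neat ℂ (e.P i) ∧ ∃ S : Finset (AlgebraicClosure ℚ_[ℓ]),
          StableRoots (Subgroup.zpowers φ) ((e.P i).map (algebraMap ℚ ℚ_[ℓ])) S ∧
            ¬ (d + 1) ∣ S.card) := by
  have hdef : ∃ e : Element ρ, True := by
    obtain ⟨γ, e, -⟩ := hD.nonempty
    exact ⟨e, trivial⟩
  rcases a with ⟨i, ⟨d, hd⟩⟩ | ⟨i, ⟨d, hd⟩⟩
  · by_cases hd0 : 0 < d
    · obtain ⟨f, ⟨X, hX, hf⟩, hsep, hS⟩ := hT.sum i d hd0 hd
      rw [hf i] at hsep hS
      obtain ⟨e, -, hneat, E, hE⟩ := pick hρ hD (hMT X hX) i hsep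
      refine ⟨e, fun i' d' hd' h _ => ?_, fun i' d' hd' h => by cases h⟩
      cases h
      refine ⟨hneat, fun S hS' => ?_⟩
      obtain ⟨S', h1, h2⟩ := hE.pull hS'
      rw [← h2]
      exact hS S' h1
    · obtain ⟨e, -⟩ := hdef
      refine ⟨e, fun i' d' hd' h h0 => ?_, fun i' d' hd' h => by cases h⟩
      cases h
      exact absurd h0 hd0
  · by_cases hd0 : (d + 1).Prime ∧ d + 1 ∣ n i
    · obtain ⟨f, ⟨X, hX, hf⟩, hsep, S, hS, hp⟩ := hT.divisor i (by omega) (d + 1) hd0.1 hd0.2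
      rw [hf i] at hsep hS
      obtain ⟨e, -, hneat, E, hE⟩ := pick hρ hD (hMT X hX) i hsep
      refine ⟨e, (fun i' d' hd' h => by cases h), fun i' d' hd' h _ _ => ?_⟩
      cases h
      refine ⟨hneat, ?_⟩
      obtain ⟨S', h1, h2⟩ := hE.push hS
      exact ⟨S', h1, by rw [h2]; exact hp⟩
    · obtain ⟨e, -⟩ := hdef
      refine ⟨e, (fun i' d' hd' h => by cases h), fun i' d' hd' h h1 h2 => ?_⟩
      cases h
      exact absurd ⟨h1, h2⟩ hd0

end Pool.Agent.H853.OP
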