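import Pool.Agent.H853.OS.Defs

/-!
# Tangent vectors and types of orbits on eigenvalues: definitions
-/

set_option autoImplicit false

namespace Pool.Agent.H853.OP

open Module Polynomial Pool.Agent.H853.OS

variable {ι : Type} {n : ι → ℕ}

section block

variable {K : Type} [Field K]

/-- The matrix of the endomorphism of the `i`-th summand of the direct sum of the spaces `K ^ (n i)`
which is induced by the endomorphism `X` of the sum. -/
def block [DecidableEq ι] (X : End K (∀ i, Fin (n i) → K)) (i : ι) : Matrix (Fin (n i)) (Fin (n i)) K :=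
  fun a b => X (Pi.single i (Pi.single b 1)) i a

/-- The families of the characteristic polynomials, on all summands, of the elements of `𝔤`. -/
def polys [DecidableEq ι] (𝔤 : Submodule K (End K (∀ i, Fin (n i) → K))) : Set (ι → K[X]) :=
  {f | ∃ X ∈ 𝔤, ∀ i, f i = (block X i).charpoly}

end block

section types

variable {K Ω : Type} [Field K] [Field Ω] [Algebra K Ω]

/-- The polynomial has no multiple root, and no set of `d` roots is stable under `φ`. -/
def NoStableSet (φ : Ω ≃ₐ[K] Ω) (f : K[X]) (d : ℕ) : Prop :=
  f.Separable ∧ ∀ S : Finset Ω, StableRoots (Subgroup.zpowers φ) f S → S.card ≠ d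

/-- The polynomial has no multiple root, and the order of some set of roots, stable under `φ`, is not
divisible by `p`. -/
def PrimeStableSet (φ : Ω ≃ₐ[K] Ω) (f : K[X]) (p : ℕ) : Prop :=
  f.Separable ∧ ∃ S : Finset Ω, StableRoots (Subgroup.zpowers φ) f S ∧ ¬ p ∣ S.card

variable (Ω) in
/-- Some root of `f` is not a root of `g`. -/
def NewRoot (f g : K[X]) : Prop := ∃ x : Ω, aeval x f = 0 ∧ aeval x g ≠ 0

/-- The families of polynomials in `A` (the characteristic polynomials of the elements of `𝔤` on the
summands) have enough types of orbits of the powers of the automorphism `φ` on their roots.  `sum`: for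
each `0 < d < n i` there is an `f` in `A` such that `f i` has no multiple root, and no set of `d` roots of
`f i` is stable under `φ`.  `divisor`: for each prime divisor `p` of `n i` there is such an `f` with a set
of roots of `f i`, stable under `φ`, the order of which is not divisible by `p`.  `different`: for
`i ≠ j` there is an `f` in `A` such that some root of `f i` is not a root of `f j`. -/
structure TypesFor (n : ι → ℕ) (A : Set (ι → K[X])) (φ : Ω ≃ₐ[K] Ω) : Prop where
  sum : ∀ i d, 0 < d → d < n i → ∃ f ∈ A, NoStableSet φ (f i) d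
  divisor : ∀ i, 0 < n i → ∀ p : ℕ, p.Prime → p ∣ n i → ∃ f ∈ A, PrimeStableSet φ (f i) p
  different : ∀ i j, i ≠ j → ∃ f ∈ A, NewRoot Ω (f i) (f j)

end types

section tangent

variable {K : Type} [NormedField K] {Γ : Type} [Group Γ]
  (ρ : ∀ i, Representation K Γ (Fin (n i) → K))

/-- `(ρ(γ) - 1) / t` is close to `X`, in all summands, and `t ≠ 0` is small. -/
def Close [DecidableEq ι] (ε : ℝ) (X : End K (∀ i, Fin (n i) → K)) (γ : Γ) (t : K) : Prop :=
  t ≠ 0 ∧ ‖t‖ < ε ∧ ∀ i a b, ‖t⁻¹ * (LinearMap.toMatrix' (ρ i γ) - 1) a b - block X i a b‖ < ε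

/-- All `X` in `𝔤` are tangent vectors of the image of `Γ` at the identity: there are `γ` in `Γ` and
`t ≠ 0`, arbitrarily small, such that `(ρ(γ) - 1) / t` is arbitrarily close to `X`. -/
def TangentFor [DecidableEq ι] (𝔤 : Submodule K (End K (∀ i, Fin (n i) → K))) : Prop :=
  ∀ X ∈ 𝔤, ∀ ε : ℝ, 0 < ε → ∃ γ t, Close ρ ε X γ t

end tangent

end Pool.Agent.H853.OP
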