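import Pool.Agent.H853.OP.Res

/-!
# Different eigenvalues for group elements close to one in a given tangent direction
-/

set_option autoImplicit false
set_option linter.unusedSectionVars false

namespace Pool.Agent.H853.OP

open Module Polynomial Pool.Agent.Y114.TF Pool.Agent.Y114.RM Pool.Agent.H853.OS Pool.Agent.H853.CC

section local_part

variable {p : ℕ} [Fact p.Prime] {m m' : Type} [Fintype m] [DecidableEq m] [Fintype m']
  [DecidableEq m']

theorem norm_root_le (A : Matrix m m ℚ_[p]) {C : ℝ} (hC : 0 ≤ C) (hA : ∀ i j, ‖A i j‖ ≤ C)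
    (z : PadicAlgCl p) (hz : aeval z A.charpoly = 0) : ‖z‖ ≤ C := by
  rw [aeval_charpoly] at hz
  obtain ⟨v, hv0, hv⟩ := Matrix.exists_mulVec_eq_zero_iff.2 hz
  obtain ⟨i₀, hi₀⟩ : ∃ i, v i ≠ 0 := by
    by_contra h
    push Not at h
    exact hv0 (funext h)
  obtain ⟨i, -, hi⟩ := Finset.exists_max_image Finset.univ (fun i => ‖v i‖) ⟨i₀, Finset.mem_univ _⟩
  have hvi : 0 < ‖v i‖ := (norm_pos_iff.2 hi₀).trans_le (hi i₀ (Finset.mem_univ _))
  have h1 := congrFun hv i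
  rw [Matrix.sub_mulVec, Pi.sub_apply, Pi.zero_apply, sub_eq_zero] at h1
  have h2 : (Matrix.scalar m z).mulVec v i = z * v i := by
    rw [Matrix.scalar_apply, Matrix.mulVec_diagonal]
  rw [h2] at h1
  have h3 : ‖z * v i‖ ≤ C * ‖v i‖ := by
    rw [h1]
    unfold Matrix.mulVec dotProduct
    refine IsUltrametricDist.norm_sum_le_of_forall_le_of_nonneg (by positivity) fun j _ => ?_
    rw [norm_mul]
    change ‖(algebraMap ℚ_[p] (PadicAlgCl p)) (A i j)‖ * ‖v j‖ ≤ C * ‖v i‖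
    have h4 : ‖(algebraMap ℚ_[p] (PadicAlgCl p)) (A i j)‖ = ‖A i j‖ := PadicAlgCl.norm_extends p _
    rw [h4]
    exact mul_le_mul (hA i j) (hi j (Finset.mem_univ _)) (norm_nonneg _) hC
  rw [norm_mul] at h3
  exact le_of_mul_le_mul_right h3 hvi

theorem near_ne (Y : Matrix m' m' ℚ_[p]) (x : PadicAlgCl p) (hx : aeval x Y.charpoly ≠ 0) :
    ∃ ε > 0, ∀ (A : Matrix m' m' ℚ_[p]) (y : PadicAlgCl p), (∀ i j, ‖A i j - Y i j‖ < ε) →
      ‖x - y‖ < ε → aeval y A.charpoly ≠ 0 := by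
  let F : (m' → m' → ℚ_[p]) × PadicAlgCl p → PadicAlgCl p := fun A =>
    (Matrix.scalar m' A.2 - (Matrix.of A.1).map (algebraMap ℚ_[p] (PadicAlgCl p))).det
  have hF : Continuous F := by
    refine Continuous.matrix_det (Continuous.sub ?_ ?_)
    · refine continuous_pi fun i => continuous_pi fun j => ?_
      simp only [Matrix.scalar_apply, Matrix.diagonal_apply]
      by_cases hij : i = j
      · simp only [hij, if_true]
        exact continuous_snd
      · simp only [hij, if_false]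
        exact continuous_const
    · refine continuous_pi fun i => continuous_pi fun j => ?_
      have h0 : Continuous fun A : m' → m' → ℚ_[p] => A i j :=
        (continuous_apply j).comp (continuous_apply i)
      have h1 : Continuous fun A : (m' → m' → ℚ_[p]) × PadicAlgCl p => A.1 i j :=
        h0.comp continuous_fst
      exact (continuous_algebraMap ℚ_[p] (PadicAlgCl p)).comp h1
  let Y' : m' → m' → ℚ_[p] := Y
  have h0 : F (Y', x) ≠ 0 := by
    change (Matrix.scalar m' x - Y.map (algebraMap ℚ_[p] (PadicAlgCl p))).det ≠ 0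
    rw [← aeval_charpoly]
    exact hx
  obtain ⟨ε, hε, h⟩ := Metric.eventually_nhds_iff.1
    ((hF.continuousAt (x := (Y', x))).eventually_ne h0)
  refine ⟨ε, hε, fun A y hA hy => ?_⟩
  let A' : m' → m' → ℚ_[p] := A
  have h1 : dist ((A', y) : (m' → m' → ℚ_[p]) × PadicAlgCl p) (Y', x) < ε := by
    rw [Prod.dist_eq, max_lt_iff]
    refine ⟨(dist_pi_lt_iff hε).2 fun i => (dist_pi_lt_iff hε).2 fun j => ?_, ?_⟩
    · rw [dist_eq_norm]
      exact hA i j
    · rw [dist_comm, dist_eq_norm]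
      exact hy
  have h2 := h h1
  rw [aeval_charpoly]
  exact h2

/-- Group elements close to one in the direction `(X, Y)` have different eigenvalues. -/
theorem near_sep (X : Matrix m m ℚ_[p]) (Y : Matrix m' m' ℚ_[p]) (x : PadicAlgCl p)
    (hx : aeval x X.charpoly = 0) (hy : aeval x Y.charpoly ≠ 0) :
    ∃ ε > 0, ∀ (B : Matrix m m ℚ_[p]) (B' : Matrix m' m' ℚ_[p]) (t : ℚ_[p]), t ≠ 0 → ‖t‖ < ε →
      (∀ i j, ‖t⁻¹ * (B - 1) i j - X i j‖ < ε) → (∀ i j, ‖t⁻¹ * (B' - 1) i j - Y i j‖ < ε) →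
      ∃ a : PadicAlgCl p, aeval a B.charpoly = 0 ∧ ∀ b : PadicAlgCl p,
        aeval b B'.charpoly = 0 → ∀ N : ℕ, 0 < N → a ^ N ≠ b ^ N := by
  obtain ⟨ε₁, hε₁, hne⟩ := near_ne Y x hy
  obtain ⟨ε₂, hε₂, hdet⟩ := near_det X x hx (pow_pos hε₁ (Fintype.card m))
  have hp : 1 < (p : ℝ) := by exact_mod_cast (Fact.out : p.Prime).one_lt
  have hp0 : 0 < (p : ℝ) := zero_lt_one.trans hp
  obtain ⟨CY, hCY⟩ : ∃ C : ℝ, ∀ i j, ‖Y i j‖ ≤ C := by
    refine ⟨∑ i, ∑ j, ‖Y i j‖, fun i j => ?_⟩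
    refine (Finset.single_le_sum (f := fun j => ‖Y i j‖) (fun _ _ => norm_nonneg _)
      (Finset.mem_univ j)).trans ?_
    exact Finset.single_le_sum (f := fun i => ∑ j, ‖Y i j‖)
      (fun _ _ => Finset.sum_nonneg fun _ _ => norm_nonneg _) (Finset.mem_univ i)
  set C : ℝ := max (max CY 0 + ε₁) (‖x‖ + ε₁) with hCdef
  have hC : 0 < C := lt_max_of_lt_left (by positivity)
  refine ⟨min (min ε₁ ε₂) ((p : ℝ)⁻¹ / C), by positivity, fun B B' t ht htε hB hB' => ?_⟩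
  have hm1 : min (min ε₁ ε₂) ((p : ℝ)⁻¹ / C) ≤ ε₁ := (min_le_left _ _).trans (min_le_left _ _)
  have hm2 : min (min ε₁ ε₂) ((p : ℝ)⁻¹ / C) ≤ ε₂ := (min_le_left _ _).trans (min_le_right _ _)
  have hm3 : min (min ε₁ ε₂) ((p : ℝ)⁻¹ / C) ≤ (p : ℝ)⁻¹ / C := min_le_right _ _
  set A : Matrix m m ℚ_[p] := t⁻¹ • (B - 1) with hA
  set A' : Matrix m' m' ℚ_[p] := t⁻¹ • (B' - 1) with hA'
  have hBA : B = 1 + t • A := by
    rw [hA, smul_smul, mul_inv_cancel₀ ht, one_smul]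
    abel
  have hBA' : B' = 1 + t • A' := by
    rw [hA', smul_smul, mul_inv_cancel₀ ht, one_smul]
    abel
  set s : PadicAlgCl p := algebraMap ℚ_[p] (PadicAlgCl p) t with hs
  have hs0 : s ≠ 0 := by
    rw [hs]
    exact (_root_.map_ne_zero _).2 ht
  have hsn : ‖s‖ < (p : ℝ)⁻¹ / C := by
    have h1 : ‖s‖ = ‖t‖ := PadicAlgCl.norm_extends p t
    rw [h1]
    exact htε.trans_le hm3
  obtain ⟨y, hyA, hxy⟩ := exists_near_root A x hε₁ (hdet A fun i j => by
    have h1 := hB i j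
    exact h1.trans_le hm2)
  have hyC : ‖y‖ ≤ C := by
    have h3 : y = x - (x - y) := by ring
    have h4 : ‖y‖ ≤ ‖x‖ + ‖x - y‖ := by
      conv_lhs => rw [h3]
      exact norm_sub_le _ _
    refine (h4.trans ?_).trans (le_max_right _ _)
    linarith
  have hA'C : ∀ i j, ‖A' i j‖ ≤ C := by
    intro i j
    have h1 : ‖A' i j - Y i j‖ < ε₁ := (hB' i j).trans_le hm1
    have h3 : A' i j = Y i j + (A' i j - Y i j) := by ring
    have h4 : ‖A' i j‖ ≤ ‖Y i j‖ + ‖A' i j - Y i j‖ := by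
      conv_lhs => rw [h3]
      exact norm_add_le _ _
    have h5 := hCY i j
    have h6 : CY ≤ max CY 0 := le_max_left _ _
    refine (h4.trans ?_).trans (le_max_left _ _)
    linarith
  have hyA' : aeval y A'.charpoly ≠ 0 := hne A' y (fun i j => (hB' i j).trans_le hm1) hxy
  have hsmall : ∀ b : PadicAlgCl p, ‖b‖ ≤ C → ‖s * b‖ < (p : ℝ)⁻¹ := by
    intro b hb
    rw [norm_mul]
    calc ‖s‖ * ‖b‖ ≤ ‖s‖ * C := mul_le_mul_of_nonneg_left hb (norm_nonneg _)
      _ < (p : ℝ)⁻¹ / C * C := mul_lt_mul_of_pos_right hsn hC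
      _ = _ := div_mul_cancel₀ _ hC.ne'
  have hone : ∀ b : PadicAlgCl p, ‖b‖ ≤ C → ‖1 + s * b‖ = 1 := by
    intro b hb
    have h1 : ‖s * b‖ < ‖(1 : PadicAlgCl p)‖ := by
      rw [norm_one]
      exact (hsmall b hb).trans (inv_lt_one_of_one_lt₀ hp)
    rw [IsUltrametricDist.norm_add_eq_max_of_norm_ne_norm h1.ne', max_eq_left h1.le, norm_one]
  refine ⟨1 + s * y, ?_, fun b hb N hN hab => ?_⟩
  · rw [hs, aeval_one_add A B t hBA y, hyA, mul_zero]
  · obtain ⟨z, rfl⟩ : ∃ z, b = 1 + s * z := ⟨(b - 1) / s, by field_simp; ring⟩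
    have hzA' : aeval z A'.charpoly = 0 := by
      rw [hs, aeval_one_add A' B' t hBA' z, mul_eq_zero] at hb
      rcases hb with h1 | h1
      · exact absurd h1 (pow_ne_zero _ hs0)
      · exact h1
    have hzC : ‖z‖ ≤ C := norm_root_le A' hC.le hA'C z hzA'
    have hne' : (1 + s * z) ≠ 0 := by
      rw [← norm_pos_iff, hone z hzC]
      exact one_pos
    have h1 : ((1 + s * y) / (1 + s * z)) ^ N = 1 := by
      rw [div_pow, hab, div_self (pow_ne_zero _ hne')]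
    have h2 : ‖(1 + s * y) / (1 + s * z) - 1‖ < (p : ℝ)⁻¹ := by
      have h3 : (1 + s * y) / (1 + s * z) - 1 = (s * y - s * z) / (1 + s * z) := by
        field_simp
        ring
      rw [h3, norm_div, hone z hzC, div_one]
      exact ultra _ _ (hsmall y hyC) (hsmall z hzC)
    have h3 := eq_one_of_pow h2 hN h1
    rw [div_eq_one_iff_eq hne'] at h3
    have h4 : y = z := mul_left_cancel₀ hs0 (add_left_cancel h3)
    exact hyA' (by rw [h4]; exact hzA')

end local_part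

theorem separates_of_map {K Ω : Type*} [Field K] [Field Ω] [CharZero Ω] [Algebra ℚ K] [Algebra K Ω]
    [IsAlgClosed Ω] {P Q : ℚ[X]} (hP : P ≠ 0) (hQ : Q ≠ 0)
    (h : ∃ a : Ω, aeval a (P.map (algebraMap ℚ K)) = 0 ∧ ∀ b : Ω,
      aeval b (Q.map (algebraMap ℚ K)) = 0 → ∀ N : ℕ, 0 < N → a ^ N ≠ b ^ N) : Separates P Q := by
  obtain ⟨e₁, e₂, -⟩ := exists_pair Ω
  obtain ⟨a, ha, hab⟩ := h
  rw [aeval_map_rat] at ha
  obtain ⟨a', rfl, ha'⟩ := exists_root e₂ hP (IsAlgClosed.splits _) ha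
  refine ⟨e₁ a', by rw [aeval_hom, ha', map_zero], fun b hb N hN heq => ?_⟩
  obtain ⟨b', rfl, hb'⟩ := exists_root e₁ hQ (IsAlgClosed.splits _) hb
  rw [← map_pow, ← map_pow] at heq
  have h1 := e₁.injective heq
  refine hab (e₂ b') (by rw [aeval_map_rat, aeval_hom, hb', map_zero]) N hN ?_
  rw [← map_pow, ← map_pow, h1]

variable {Γ : Type} [Group Γ] [TopologicalSpace Γ] [IsTopologicalGroup Γ] [CompactSpace Γ]
  {ι : Type} [Fintype ι] [DecidableEq ι] {n : ι → ℕ} {ρ : ∀ (ℓ : ℕ) [Fact ℓ.Prime], Reps Γ n ℓ}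

/-- The summands are different if their weights for the Lie algebra are different. -/
theorem different_of {ℓ : ℕ} [Fact ℓ.Prime] (hρ : Conts (ρ ℓ)) (hD : DenseAt ρ ℓ)
    (𝔤 : EndSpace n ℓ) (hMT : LieMumfordTate (ρ ℓ) 𝔤)
    (φ : AlgebraicClosure ℚ_[ℓ] ≃ₐ[ℚ_[ℓ]] AlgebraicClosure ℚ_[ℓ]) (hT : Types 𝔤 φ) :
    Different ρ := by
  intro i j hij
  obtain ⟨f, ⟨X, hX, hf⟩, x, hx, hy⟩ := hT.different i j hij
  rw [hf i] at hx
  rw [hf j] at hy
  obtain ⟨ε, hε, h⟩ := near_sep (block X i) (block X j) x hx hy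
  obtain ⟨e, t, he, ht, htε, hA⟩ := approx hρ hD (hMT X hX) hε
  have h1 : ∀ i, (LinearMap.toMatrix' (ρ ℓ i e.γ)).charpoly =
      (e.P i).map (algebraMap ℚ ℚ_[ℓ]) := by
    intro i
    rw [← e.charpoly ℓ he i, ← LinearMap.charpoly_toMatrix _ (Pi.basisFun ℚ_[ℓ] (Fin (n i))),
      LinearMap.toMatrix_eq_toMatrix']
  have h2 := h (LinearMap.toMatrix' (ρ ℓ i e.γ)) (LinearMap.toMatrix' (ρ ℓ j e.γ)) t ht htε
    (hA i) (hA j)
  rw [h1 i, h1 j] at h2
  exact ⟨e, separates_of_map (ne_zero_of_char e.charpoly i) (ne_zero_of_char e.charpoly j) h2⟩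

end Pool.Agent.H853.OP
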