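import Pool.Agent.H853.OP.Glu
import Pool.Agent.H853.OP.Dif

/-!
# The witnesses given by the Mumford-Tate conjecture at many primes
-/

set_option autoImplicit false
set_option linter.unusedSectionVars false

namespace Pool.Agent.H853.OP

open NumberField Filter Topology Finset Polynomial IntermediateField Pool.Agent.W522.C
  Pool.Agent.H853.G2 Pool.Agent.H853.OS Pool.Agent.H853.CC Pool.Agent.Y114.RM

section family

variable {J : Type*} {L : J → IntermediateField ℚ ℂ} (τ : ∀ j, AG (L j)) (bd : J → Finset ℕ)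

/-- **The density for a family of automorphisms.** -/
theorem density_familyV' (h1 : ∀ j, FiniteDimensional ℚ (L j))
    (h2 : ∀ j, @IsGalois ℚ _ (L j) _ (IntermediateField.algebra' (L j))) {B : ℕ}
    (hB : ∀ j, Module.finrank ℚ (L j) ≤ B)
    (hag : ∀ M : IntermediateField ℚ ℂ, FiniteDimensional ℚ M →
      @IsGalois ℚ _ M _ (IntermediateField.algebra' M) → ∀ g : AG M, ∃ j,
        ∀ (x : M) (y : L j), (x : ℂ) = y → ((g x : M) : ℂ) = (τ j y : L j)) :
    LowerDensity (liftSet τ bd) 1 := by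
  classical
  have hB' : ∀ j, gsz (L j) ≤ B := by
    intro j
    unfold gsz
    rw [IsGalois.card_aut_eq_finrank]
    exact hB j
  obtain ⟨j0, -⟩ := hag ⊥ inferInstance inferInstance 1
  have hB1 : 1 ≤ B := (gsz_pos (L j0)).trans_le (hB' j0)
  refine LowerDensity.of_lim fun η hη => ?_
  have hlim : Tendsto (fun N : ℕ => (1 - 1 / (B : ℝ)) ^ N) atTop (𝓝 0) := by
    apply tendsto_pow_atTop_nhds_zero_of_lt_one
    · have : 1 / (B : ℝ) ≤ 1 := by
        rw [div_le_one (by exact_mod_cast hB1)]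
        exact_mod_cast hB1
      linarith
    · have : 0 < 1 / (B : ℝ) := by
        have : (0 : ℝ) < B := by exact_mod_cast hB1
        positivity
      linarith
  obtain ⟨N, hN⟩ := (hlim.eventually (gt_mem_nhds hη)).exists
  obtain ⟨M, i1, i2, hM⟩ := exists_smallV' (τ := τ) hB' hag N
  obtain ⟨good, hgood, hsum⟩ := exists_goodV (τ := τ) (M := M)
  have h3 := density_stepV τ bd M i1 i2 good.card (by
    rw [← Set.ncard_coe_finset]
    apply le_of_eq
    congr 1
    ext g
    exact hgood g)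
  refine ⟨_, ?_, h3⟩
  have hg : (0 : ℝ) < gsz M := by exact_mod_cast gsz_pos M
  change _ ≤ (good.card : ℝ) / (gsz M : ℝ)
  rw [le_div_iff₀ hg]
  have h4 : ((badV τ M).card : ℝ) ≤ η * gsz M := by
    rw [div_le_iff₀ hg] at hM
    exact hM.trans (mul_le_mul_of_nonneg_right hN.le hg.le)
  have h5 : (good.card : ℝ) + (badV τ M).card = gsz M := by exact_mod_cast hsum
  linarith

end family

/-- Extension of an embedding. -/
theorem exists_extension (N L : IntermediateField ℚ ℂ) (hN : FiniteDimensional ℚ N)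
    (hL : FiniteDimensional ℚ L) {Ω : Type*} [Field Ω] [CharZero Ω] [IsAlgClosed Ω]
    (j₀ : N →+* Ω) : ∃ (j : L →+* Ω), (∀ (a : N) (x : L), (a : ℂ) = x → j₀ a = j x) ∧
      ∀ (b : N) (y : L), j₀ b = j y → (b : ℂ) = y := by
  have hN' : FiniteDimensional ℚ (N ⊔ L : IntermediateField ℚ ℂ) := inferInstance
  let inc : N →ₐ[ℚ] (N ⊔ L : IntermediateField ℚ ℂ) := IntermediateField.inclusion le_sup_left
  let inc' : L →ₐ[ℚ] (N ⊔ L : IntermediateField ℚ ℂ) := IntermediateField.inclusion le_sup_right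
  let _ : Algebra N (N ⊔ L : IntermediateField ℚ ℂ) := inc.toRingHom.toAlgebra
  let _ : Algebra N Ω := j₀.toAlgebra
  have _ : IsScalarTower ℚ N (N ⊔ L : IntermediateField ℚ ℂ) :=
    IsScalarTower.of_algebraMap_eq fun x => (inc.commutes x).symm
  have _ : Algebra.IsAlgebraic N (N ⊔ L : IntermediateField ℚ ℂ) :=
    Algebra.IsAlgebraic.tower_top (K := ℚ) N
  let j' : (N ⊔ L : IntermediateField ℚ ℂ) →ₐ[N] Ω := IsAlgClosed.lift
  have hj' : ∀ a : N, j' (inc a) = j₀ a := fun a => j'.commutes a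
  refine ⟨j'.toRingHom.comp inc'.toRingHom, fun a x hax => ?_, fun b y h => ?_⟩
  · have h1 : inc a = inc' x := Subtype.ext hax
    change j₀ a = j' (inc' x)
    rw [← h1, hj']
  · have h1 : j' (inc b) = j' (inc' y) := (hj' b).trans h
    have h2 := j'.toRingHom.injective h1
    exact congrArg (fun u : (N ⊔ L : IntermediateField ℚ ℂ) => (u : ℂ)) h2

end Pool.Agent.H853.OP
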