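import Pool.Agent.H853.G2.Dens

/-!
# Fields with automorphisms which agree with given ones
-/

set_option autoImplicit false
set_option linter.unusedSectionVars false

namespace Pool.Agent.H853.OP

open Finset IntermediateField Pool.Agent.W522.C Pool.Agent.H853.G2

section Rec

variable {F K : Type*} [Field F] [Field K] [Algebra F K] {J : Type*}
  {L : J → IntermediateField F K} (τ : ∀ j, Gal(L j/F))

variable {τ}

theorem badV_step' {M M' : IntermediateField F K} [FiniteDimensional F M] [IsGalois F M]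
    [FiniteDimensional F M'] [IsGalois F M'] [∀ j, FiniteDimensional F (L j)]
    [∀ j, IsGalois F (L j)] (jj : Gal(M/F) → J) (hMM' : M ≤ M')
    (hPM' : ∀ g, M ⊔ L (jj g) ≤ M') {B : ℕ} (hB : ∀ j, gsz (L j) ≤ B)
    (hagree : ∀ (g : Gal(M/F)) (x : M) (y : L (jj g)), (x : K) = y →
      ((g x : M) : K) = (τ (jj g) y : L (jj g))) :
    ((badV τ M').card : ℝ) / gsz M' ≤ (1 - 1 / (B : ℝ)) * ((badV τ M).card / gsz M) := by
  classical
  obtain ⟨ρ, hρ, h1⟩ := exists_res2 hMM'
  have hB1 : 1 ≤ B := (gsz_pos (L (jj 1))).trans_le (hB _)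
  -- the fibres
  set k : ℕ := (univ.filter fun x => ρ x = 1).card with hk
  have hfib : ∀ g, (univ.filter fun x => ρ x = g).card * gsz M = gsz M' := by
    intro g
    have h2 := card_fiber ρ hρ g
    unfold gsz
    rw [Nat.card_eq_fintype_card, Nat.card_eq_fintype_card, ← h2]
  have hfibk : ∀ g, (univ.filter fun x => ρ x = g).card = k := fun g =>
    Nat.eq_of_mul_eq_mul_right (gsz_pos M) ((hfib g).trans (hfib 1).symm)
  have hkM : k * gsz M = gsz M' := hfib 1
  have hk0 : 0 < k := by
    rcases Nat.eq_zero_or_pos k with h2 | h2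
    · rw [h2, zero_mul] at hkM
      exact absurd hkM.symm (gsz_pos M').ne'
    · exact h2
  -- many good elements in each fibre
  have hmany : ∀ g : Gal(M/F), k ≤
      ((univ.filter fun x => ρ x = g).filter fun x => IsOnV τ x (jj g)).card * B := by
    intro g
    obtain ⟨ρ', hρ', h1'⟩ := exists_res2 (hPM' g)
    obtain ⟨y, hy1, hy2⟩ := exists_glue2 (N := M ⊔ L (jj g)) le_sup_right le_sup_left g
      (τ (jj g)) (hagree g)
    have h2 := card_fiber ρ' hρ' y
    have h3 : (univ.filter fun x => ρ' x = y).card * gsz (M ⊔ L (jj g)) = gsz M' := by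
      unfold gsz
      rw [Nat.card_eq_fintype_card, Nat.card_eq_fintype_card, ← h2]
    have h4 : (univ.filter fun x => ρ' x = y) ⊆
        ((univ.filter fun x => ρ x = g).filter fun x => IsOnV τ x (jj g)) := by
      intro x hx
      have hxy : ρ' x = y := (mem_filter.1 hx).2
      rw [mem_filter, mem_filter]
      refine ⟨⟨mem_univ _, ?_⟩, le_sup_right.trans (hPM' g), fun z hz => ?_⟩
      · apply AlgEquiv.ext
        intro z
        apply Subtype.ext
        rw [h1 x z ⟨z, hMM' z.2⟩ rfl]
        have h5 := h1' x ⟨z, (le_sup_left : M ≤ M ⊔ L (jj g)) z.2⟩ ⟨z, hMM' z.2⟩ rfl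
        rw [← h5, hxy]
        exact hy1 z _ rfl
      · have h5 := h1' x ⟨z, (le_sup_right : L (jj g) ≤ M ⊔ L (jj g)) hz⟩ z rfl
        rw [← h5, hxy]
        exact hy2 ⟨z, hz⟩ _ rfl
    have h5 := card_le_card h4
    have h6 : gsz (M ⊔ L (jj g)) ≤ gsz M * B :=
      gsz_sup_le.trans (Nat.mul_le_mul_left _ (hB _))
    refine le_trans ?_ (Nat.mul_le_mul_right B h5)
    have h7 : k * gsz M ≤ (univ.filter fun x => ρ' x = y).card * B * gsz M := by
      rw [hkM, ← h3]
      calc _ ≤ (univ.filter fun x => ρ' x = y).card * (gsz M * B) := Nat.mul_le_mul_left _ h6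
        _ = _ := by ring
    exact Nat.le_of_mul_le_mul_right h7 (gsz_pos M)
  have hBR : (0 : ℝ) < B := by exact_mod_cast hB1
  have hfew : ∀ g : Gal(M/F),
      (((univ.filter fun x => ρ x = g).filter fun x => ¬ IsOnV τ x (jj g)).card : ℝ) ≤
        k * (1 - 1 / B) := by
    intro g
    have h2 := Finset.card_filter_add_card_filter_not (s := univ.filter fun x => ρ x = g)
      (fun x => IsOnV τ x (jj g))
    rw [hfibk g] at h2
    have h3 : (((univ.filter fun x => ρ x = g).filter fun x => IsOnV τ x (jj g)).card : ℝ) +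
        (((univ.filter fun x => ρ x = g).filter fun x => ¬ IsOnV τ x (jj g)).card : ℝ) = k := by
      exact_mod_cast h2
    have h4 : (k : ℝ) ≤
        (((univ.filter fun x => ρ x = g).filter fun x => IsOnV τ x (jj g)).card : ℝ) * B := by
      exact_mod_cast hmany g
    have h5 : (k : ℝ) / B ≤
        (((univ.filter fun x => ρ x = g).filter fun x => IsOnV τ x (jj g)).card : ℝ) := by
      rw [div_le_iff₀ hBR]
      exact h4
    have h6 : (k : ℝ) * (1 - 1 / B) = k - k / B := by ring
    rw [h6]
    linarith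
  have hbound : ((badV τ M').card : ℝ) ≤ (badV τ M).card * (k * (1 - 1 / B)) := by
    have h2 : badV τ M' ⊆ (badV τ M).biUnion fun g =>
        (univ.filter fun x => ρ x = g).filter fun x => ¬ IsOnV τ x (jj g) := by
      intro x hx
      unfold badV at hx
      obtain ⟨-, hxP⟩ := mem_filter.1 hx
      rw [mem_biUnion]
      refine ⟨ρ x, ?_, ?_⟩
      · unfold badV
        rw [mem_filter]
        refine ⟨mem_univ _, fun i hi => hxP i ?_⟩
        refine ⟨hi.1.trans hMM', fun y hy => ?_⟩
        have h4 := hi.2 ⟨y, hi.1 hy⟩ hy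
        rw [h1 x _ y rfl] at h4
        exact h4
      · rw [mem_filter, mem_filter]
        exact ⟨⟨mem_univ _, rfl⟩, hxP _⟩
    have h3 : ((badV τ M').card : ℝ) ≤ ∑ g ∈ badV τ M,
        (((univ.filter fun x => ρ x = g).filter fun x => ¬ IsOnV τ x (jj g)).card : ℝ) := by
      exact_mod_cast (card_le_card h2).trans card_biUnion_le
    refine h3.trans ?_
    rw [← nsmul_eq_mul]
    exact Finset.sum_le_card_nsmul _ _ _ fun g _ => hfew g
  have hkR : (0 : ℝ) < k := by exact_mod_cast hk0
  have hMR : (0 : ℝ) < gsz M := by exact_mod_cast gsz_pos M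
  have h5 : (gsz M' : ℝ) = k * gsz M := by rw [← hkM]; push_cast; ring
  rw [h5, div_le_iff₀ (mul_pos hkR hMR)]
  refine hbound.trans (le_of_eq ?_)
  field_simp

/-- There are finite Galois extensions for which the proportion of bad elements is arbitrarily
small. -/
theorem exists_smallV' [∀ j, FiniteDimensional F (L j)] [∀ j, IsGalois F (L j)] {B : ℕ}
    (hB : ∀ j, gsz (L j) ≤ B)
    (hag : ∀ (M : IntermediateField F K), FiniteDimensional F M → IsGalois F M →
      ∀ g : Gal(M/F), ∃ j, ∀ (x : M) (y : L j), (x : K) = y →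
        ((g x : M) : K) = (τ j y : L j)) (N : ℕ) :
    ∃ (M : IntermediateField F K) (_ : FiniteDimensional F M) (_ : IsGalois F M),
      ((badV τ M).card : ℝ) / gsz M ≤ (1 - 1 / (B : ℝ)) ^ N := by
  induction N with
  | zero =>
    refine ⟨⊥, inferInstance, inferInstance, ?_⟩
    rw [pow_zero, div_le_one (by exact_mod_cast gsz_pos (⊥ : IntermediateField F K))]
    unfold gsz
    rw [Nat.card_eq_fintype_card]
    exact_mod_cast card_le_univ _
  | succ N ih =>
    obtain ⟨M, i1, i2, hM⟩ := ih
    choose jj hjj using hag M i1 i2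
    have hB1 : 1 ≤ B := (gsz_pos (L (jj 1))).trans_le (hB _)
    have i3 : FiniteDimensional F (M ⊔ ⨆ g, L (jj g) : IntermediateField F K) := inferInstance
    have i5 : IsGalois F (⨆ g, L (jj g) : IntermediateField F K) :=
      { to_isSeparable := inferInstance
        to_normal := inferInstance }
    have i4 : IsGalois F (M ⊔ ⨆ g, L (jj g) : IntermediateField F K) := inferInstance
    refine ⟨M ⊔ ⨆ g, L (jj g), i3, i4, ?_⟩
    refine (badV_step' jj le_sup_left
      (fun g => sup_le_sup_left (le_iSup (fun g => L (jj g)) g) M) hB hjj).trans ?_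
    have h5 : (0 : ℝ) ≤ 1 - 1 / (B : ℝ) := by
      have h6 : (1 : ℝ) ≤ B := by exact_mod_cast hB1
      have : 1 / (B : ℝ) ≤ 1 := by
        rw [div_le_one (by linarith)]
        exact h6
      linarith
    calc (1 - 1 / (B : ℝ)) * ((badV τ M).card / gsz M)
        ≤ (1 - 1 / (B : ℝ)) * (1 - 1 / (B : ℝ)) ^ N := mul_le_mul_of_nonneg_left hM h5
      _ = (1 - 1 / (B : ℝ)) ^ (N + 1) := by ring

end Rec

end Pool.Agent.H853.OP
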