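import Mathlib
import Pool.Agent.H853.OS.Defs

/-!
# Characteristic polynomials of nearby matrices over the `p`-adic numbers

If the characteristic polynomial of `X` is separable, then for all matrices `A` close to `X` there is a
bijection of the eigenvalues of `X` and of `A` in the algebraic closure of `ℚ_p`, which is compatible with
all automorphisms.
-/

set_option autoImplicit false

namespace Pool.Agent.H853.OP

open Polynomial Module

variable {p : ℕ} [Fact p.Prime]

theorem norm_aut (σ : AlgebraicClosure ℚ_[p] ≃ₐ[ℚ_[p]] AlgebraicClosure ℚ_[p])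
    (x : PadicAlgCl p) : ‖(σ x : PadicAlgCl p)‖ = ‖x‖ := by
  have h := spectralNorm_eq_of_equiv σ x
  rw [PadicAlgCl.spectralNorm_eq] at h
  exact h.symm

variable {m : Type} [Fintype m] [DecidableEq m]

/-- the value of the characteristic polynomial -/
theorem aeval_charpoly (A : Matrix m m ℚ_[p]) (a : PadicAlgCl p) :
    aeval a A.charpoly =
      (Matrix.scalar m a - A.map (algebraMap ℚ_[p] (PadicAlgCl p))).det := by
  rw [aeval_def, ← eval_map, ← Matrix.charpoly_map, Matrix.eval_charpoly]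

theorem near_det (X : Matrix m m ℚ_[p]) (a : PadicAlgCl p) (ha : aeval a X.charpoly = 0)
    {δ : ℝ} (hδ : 0 < δ) : ∃ ε > 0, ∀ A : Matrix m m ℚ_[p], (∀ i j, ‖A i j - X i j‖ < ε) →
      ‖(aeval a A.charpoly : PadicAlgCl p)‖ < δ := by
  let F : (m → m → ℚ_[p]) → PadicAlgCl p := fun A =>
    (Matrix.scalar m a - (Matrix.of A).map (algebraMap ℚ_[p] (PadicAlgCl p))).det
  have hF : Continuous F := by
    refine Continuous.matrix_det (continuous_const.sub ?_)
    refine continuous_pi fun i => continuous_pi fun j => ?_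
    have h1 : Continuous fun A : m → m → ℚ_[p] => A i j :=
      (continuous_apply j).comp (continuous_apply i)
    exact (continuous_algebraMap ℚ_[p] (PadicAlgCl p)).comp h1
  have h0 : F X = 0 := by
    change (Matrix.scalar m a - X.map (algebraMap ℚ_[p] (PadicAlgCl p))).det = 0
    rw [← aeval_charpoly, ha]
  let X' : m → m → ℚ_[p] := X
  obtain ⟨ε, hε, h⟩ := Metric.continuousAt_iff.1 (hF.continuousAt (x := X')) δ hδ
  refine ⟨ε, hε, fun A hA => ?_⟩
  let A' : m → m → ℚ_[p] := A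
  have h1 : dist A' X' < ε := by
    refine (dist_pi_lt_iff hε).2 fun i => (dist_pi_lt_iff hε).2 fun j => ?_
    rw [dist_eq_norm]
    exact hA i j
  have h2 := h h1
  have h0' : F X' = 0 := h0
  rw [h0', dist_zero_right] at h2
  rw [aeval_charpoly]
  exact h2

theorem exists_near_root (A : Matrix m m ℚ_[p]) (a : PadicAlgCl p) {δ : ℝ} (hδ : 0 < δ)
    (h : ‖(aeval a A.charpoly : PadicAlgCl p)‖ < δ ^ Fintype.card m) :
    ∃ b : PadicAlgCl p, aeval b A.charpoly = 0 ∧ ‖a - b‖ < δ := by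
  by_contra hcon
  push Not at hcon
  have hs : (A.charpoly.map (algebraMap ℚ_[p] (PadicAlgCl p))).Splits := IsAlgClosed.splits _
  have hm : (A.charpoly.map (algebraMap ℚ_[p] (PadicAlgCl p))).Monic := A.charpoly_monic.map _
  have h1 := hs.eval_eq_prod_roots_of_monic hm a
  rw [eval_map] at h1
  change aeval a A.charpoly = _ at h1
  rw [h1] at h
  have h2 : (A.charpoly.map (algebraMap ℚ_[p] (PadicAlgCl p))).roots.card = Fintype.card m := by
    rw [← hs.natDegree_eq_card_roots, A.charpoly_monic.natDegree_map, Matrix.charpoly_natDegree_eq_dim]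
  have h3 : ∀ s : Multiset (PadicAlgCl p), (∀ b ∈ s, δ ≤ ‖a - b‖) →
      δ ^ s.card ≤ ‖(s.map fun b => a - b).prod‖ := by
    intro s
    induction s using Multiset.induction_on with
    | empty => intro _; simp
    | cons x s ih =>
      intro hx
      rw [Multiset.card_cons, Multiset.map_cons, Multiset.prod_cons, norm_mul, pow_succ, mul_comm]
      exact mul_le_mul (hx x (Multiset.mem_cons_self _ _))
        (ih fun b hb => hx b (Multiset.mem_cons_of_mem hb)) (pow_nonneg hδ.le _) (norm_nonneg _)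
  have h4 := h3 (A.charpoly.map (algebraMap ℚ_[p] (PadicAlgCl p))).roots fun b hb => hcon b (by
    have h5 := (mem_roots'.1 hb).2
    rw [IsRoot.def, eval_map] at h5
    exact h5)
  rw [h2] at h4
  exact absurd h (not_lt.2 h4)

theorem ultra (x y : PadicAlgCl p) {δ : ℝ} (hx : ‖x‖ < δ) (hy : ‖y‖ < δ) : ‖x - y‖ < δ := by
  have h := IsUltrametricDist.norm_add_le_max x (-y)
  rw [← sub_eq_add_neg, norm_neg] at h
  exact h.trans_lt (max_lt hx hy)

/-- The roots of a separable characteristic polynomial. -/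
theorem exists_sep (X : Matrix m m ℚ_[p]) : ∃ δ : ℝ, 0 < δ ∧ ∀ a b : PadicAlgCl p,
    aeval a X.charpoly = 0 → aeval b X.charpoly = 0 → ‖a - b‖ < δ → a = b := by
  classical
  have h0 : X.charpoly ≠ 0 := X.charpoly_monic.ne_zero
  let R : Finset (PadicAlgCl p) := (X.charpoly.aroots (PadicAlgCl p)).toFinset
  have hR : ∀ a : PadicAlgCl p, aeval a X.charpoly = 0 → a ∈ R := fun a ha => by
    rw [Multiset.mem_toFinset, mem_aroots]
    exact ⟨h0, ha⟩
  let P : Finset (PadicAlgCl p × PadicAlgCl p) := (R ×ˢ R).filter fun q => q.1 ≠ q.2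
  rcases P.eq_empty_or_nonempty with hP | hP
  · refine ⟨1, one_pos, fun a b ha hb _ => ?_⟩
    by_contra hab
    have h1 : (a, b) ∈ P := Finset.mem_filter.2 ⟨Finset.mem_product.2 ⟨hR a ha, hR b hb⟩, hab⟩
    rw [hP] at h1
    exact absurd h1 (Finset.notMem_empty _)
  · obtain ⟨q, hq, hmin⟩ := P.exists_min_image (fun q => ‖q.1 - q.2‖) hP
    refine ⟨‖q.1 - q.2‖, ?_, fun a b ha hb h => ?_⟩
    · rw [norm_pos_iff, sub_ne_zero]
      exact (Finset.mem_filter.1 hq).2
    · by_contra hab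
      have h1 : (a, b) ∈ P := Finset.mem_filter.2 ⟨Finset.mem_product.2 ⟨hR a ha, hR b hb⟩, hab⟩
      exact absurd h (not_lt.2 (hmin (a, b) h1))

/-- **Krasner's lemma for characteristic polynomials.** -/
theorem krasner (X : Matrix m m ℚ_[p]) (hX : X.charpoly.Separable) :
    ∃ ε > 0, ∃ C : ℝ, 0 < C ∧ ∀ A : Matrix m m ℚ_[p], (∀ i j, ‖A i j - X i j‖ < ε) →
      ∃ e : PadicAlgCl p → PadicAlgCl p,
        (∀ a, aeval a X.charpoly = 0 → aeval (e a) A.charpoly = 0 ∧ ‖e a‖ < C) ∧
        (∀ a b, aeval a X.charpoly = 0 → aeval b X.charpoly = 0 → e a = e b → a = b) ∧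
        (∀ b, aeval b A.charpoly = 0 → ∃ a, aeval a X.charpoly = 0 ∧ e a = b) ∧
        (∀ σ : PadicAlgCl p ≃ₐ[ℚ_[p]] PadicAlgCl p, ∀ a, aeval a X.charpoly = 0 →
          e (σ a) = σ (e a)) := by
  classical
  obtain ⟨δ, hδ, hsep⟩ := exists_sep X
  have h0 : X.charpoly ≠ 0 := X.charpoly_monic.ne_zero
  let R : Finset (PadicAlgCl p) := (X.charpoly.aroots (PadicAlgCl p)).toFinset
  have hR : ∀ a : PadicAlgCl p, a ∈ R ↔ aeval a X.charpoly = 0 := fun a => by
    rw [Multiset.mem_toFinset, mem_aroots]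
    exact ⟨fun h => h.2, fun h => ⟨h0, h⟩⟩
  have hRcard : R.card = Fintype.card m := by
    have h1 : (X.charpoly.aroots (PadicAlgCl p)).Nodup := by
      rw [aroots_def]
      exact nodup_roots hX.map
    rw [Multiset.toFinset_card_of_nodup h1, aroots_def,
      ← (IsAlgClosed.splits _).natDegree_eq_card_roots, X.charpoly_monic.natDegree_map,
      Matrix.charpoly_natDegree_eq_dim]
  have h1 : ∀ a ∈ R, ∃ ε > 0, ∀ A : Matrix m m ℚ_[p], (∀ i j, ‖A i j - X i j‖ < ε) →
      ‖(aeval a A.charpoly : PadicAlgCl p)‖ < δ ^ Fintype.card m := fun a ha =>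
    near_det X a ((hR a).1 ha) (pow_pos hδ _)
  choose! ε hε hA using h1
  obtain ⟨ε₀, hε₀, hmin⟩ : ∃ ε₀ > 0, ∀ a ∈ R, ε₀ ≤ ε a := by
    rcases R.eq_empty_or_nonempty with hRe | hRe
    · exact ⟨1, one_pos, fun a ha => by rw [hRe] at ha; exact absurd ha (Finset.notMem_empty _)⟩
    · obtain ⟨q, hq, hmin⟩ := R.exists_min_image ε hRe
      exact ⟨ε q, hε q hq, hmin⟩
  obtain ⟨C, hC⟩ : ∃ C : ℝ, ∀ a ∈ R, ‖a‖ ≤ C := by
    refine ⟨∑ a ∈ R, ‖a‖, fun a ha => ?_⟩
    exact Finset.single_le_sum (f := fun a : PadicAlgCl p => ‖a‖) (fun _ _ => norm_nonneg _) ha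
  refine ⟨ε₀, hε₀, max C 0 + δ + 1, by positivity, fun A hAX => ?_⟩
  have h2 : ∀ a : PadicAlgCl p, aeval a X.charpoly = 0 →
      ∃ b : PadicAlgCl p, aeval b A.charpoly = 0 ∧ ‖a - b‖ < δ := fun a ha =>
    exists_near_root A a hδ (hA a ((hR a).2 ha) A fun i j =>
      (hAX i j).trans_le (hmin a ((hR a).2 ha)))
  choose! e he hed using h2
  have hinj : ∀ a b, aeval a X.charpoly = 0 → aeval b X.charpoly = 0 → e a = e b → a = b := by
    intro a b ha hb hab
    refine hsep a b ha hb ?_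
    have h3 : a - b = (a - e a) - (b - e b) := by rw [hab]; ring
    rw [h3]
    exact ultra _ _ (hed a ha) (hed b hb)
  have hA0 : A.charpoly ≠ 0 := A.charpoly_monic.ne_zero
  have hsurj : ∀ b, aeval b A.charpoly = 0 → ∃ a, aeval a X.charpoly = 0 ∧ e a = b := by
    intro b hb
    let S : Finset (PadicAlgCl p) := (A.charpoly.aroots (PadicAlgCl p)).toFinset
    have hS : ∀ a : PadicAlgCl p, a ∈ S ↔ aeval a A.charpoly = 0 := fun a => by
      rw [Multiset.mem_toFinset, mem_aroots]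
      exact ⟨fun h => h.2, fun h => ⟨hA0, h⟩⟩
    have h3 : R.image e ⊆ S := by
      intro x hx
      obtain ⟨a, ha, rfl⟩ := Finset.mem_image.1 hx
      exact (hS _).2 (he a ((hR a).1 ha))
    have h4 : (R.image e).card = R.card := Finset.card_image_of_injOn fun a ha b hb hab =>
      hinj a b ((hR a).1 ha) ((hR b).1 hb) hab
    have h5 : S.card ≤ Fintype.card m := by
      refine (Multiset.toFinset_card_le _).trans ?_
      rw [aroots_def, ← (IsAlgClosed.splits _).natDegree_eq_card_roots,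
        A.charpoly_monic.natDegree_map, Matrix.charpoly_natDegree_eq_dim]
    have h6 : R.image e = S := Finset.eq_of_subset_of_card_le h3 (by rw [h4, hRcard]; exact h5)
    have h7 : b ∈ R.image e := by rw [h6]; exact (hS b).2 hb
    obtain ⟨a, ha, hab⟩ := Finset.mem_image.1 h7
    exact ⟨a, (hR a).1 ha, hab⟩
  refine ⟨e, fun a ha => ⟨he a ha, ?_⟩, hinj, hsurj, fun σ a ha => ?_⟩
  · have h3 : e a = a - (a - e a) := by ring
    have h4 : ‖e a‖ ≤ ‖a‖ + ‖a - e a‖ := by
      conv_lhs => rw [h3]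
      exact norm_sub_le _ _
    have h5 := hC a ((hR a).2 ha)
    have h6 := hed a ha
    have h7 : C ≤ max C 0 := le_max_left _ _
    linarith
  · have hσa : aeval (σ a) X.charpoly = 0 := by
      have : aeval (σ a) X.charpoly = σ (aeval a X.charpoly) :=
        aeval_algHom_apply σ.toAlgHom a X.charpoly
      rw [this, ha, map_zero]
    have hσe : aeval (σ (e a)) A.charpoly = 0 := by
      have : aeval (σ (e a)) A.charpoly = σ (aeval (e a) A.charpoly) :=
        aeval_algHom_apply σ.toAlgHom (e a) A.charpoly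
      rw [this, he a ha, map_zero]
    obtain ⟨c, hc, hce⟩ := hsurj _ hσe
    have h3 : ‖σ a - σ (e a)‖ < δ := by
      rw [← map_sub, norm_aut]
      exact hed a ha
    have h4 : c = σ a := by
      refine hsep c (σ a) hc hσa ?_
      have h5 : c - σ a = (c - e c) - (σ a - σ (e a)) := by rw [hce]; ring
      rw [h5]
      exact ultra _ _ (hed c hc) h3
    rw [← hce, h4]

theorem norm_pow_sub_one {u : PadicAlgCl p} (h : ‖u - 1‖ < 1) (k : ℕ) : ‖u ^ k - 1‖ ≤ ‖u - 1‖ := by
  have hu : ‖u‖ ≤ 1 := by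
    have h1 := IsUltrametricDist.norm_add_le_max (u - 1) 1
    rw [sub_add_cancel, norm_one] at h1
    exact h1.trans (max_le h.le le_rfl)
  induction k with
  | zero => rw [pow_zero, sub_self, norm_zero]; exact norm_nonneg _
  | succ k ih =>
    have h1 : u ^ (k + 1) - 1 = u * (u ^ k - 1) + (u - 1) := by ring
    rw [h1]
    refine (IsUltrametricDist.norm_add_le_max _ _).trans (max_le ?_ le_rfl)
    rw [norm_mul]
    calc ‖u‖ * ‖u ^ k - 1‖ ≤ 1 * ‖u - 1‖ := mul_le_mul hu ih (norm_nonneg _) zero_le_one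
      _ = _ := one_mul _

theorem norm_natCast_le_of_pow {u : PadicAlgCl p} (h : ‖u - 1‖ < 1) {N : ℕ} (hu : u ^ N = 1)
    (hne : u ≠ 1) : ‖(N : PadicAlgCl p)‖ ≤ ‖u - 1‖ := by
  have h1 : (u - 1) * ∑ k ∈ Finset.range N, u ^ k = 0 := by
    rw [mul_comm, geom_sum_mul, hu, sub_self]
  have h2 : ∑ k ∈ Finset.range N, u ^ k = 0 :=
    (mul_eq_zero.1 h1).resolve_left (sub_ne_zero.2 hne)
  have h3 : ((N : PadicAlgCl p)) = -∑ k ∈ Finset.range N, (u ^ k - 1) := by
    rw [Finset.sum_sub_distrib, h2]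
    simp
  rw [h3, norm_neg]
  exact IsUltrametricDist.norm_sum_le_of_forall_le_of_nonneg (norm_nonneg _)
    fun k _ => norm_pow_sub_one h k

theorem norm_p' : ‖(p : PadicAlgCl p)‖ = (p : ℝ)⁻¹ := by
  have h := PadicAlgCl.norm_extends p (p : ℚ_[p])
  rw [Padic.norm_p] at h
  rw [← h, map_natCast]

theorem norm_coprime {N : ℕ} (hN : ¬ p ∣ N) : ‖(N : PadicAlgCl p)‖ = 1 := by
  have h := PadicAlgCl.norm_extends p (N : ℚ_[p])
  rw [map_natCast] at h
  rw [h, Padic.norm_natCast_eq_one_iff]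
  exact (Nat.Prime.coprime_iff_not_dvd Fact.out).2 hN

/-- Elements close to one are not roots of unity. -/
theorem eq_one_of_pow {u : PadicAlgCl p} (h : ‖u - 1‖ < (p : ℝ)⁻¹) {N : ℕ} (hN : 0 < N)
    (hu : u ^ N = 1) : u = 1 := by
  have hp : 1 < (p : ℝ) := by exact_mod_cast (Fact.out : p.Prime).one_lt
  have h1 : ‖u - 1‖ < 1 := h.trans (inv_lt_one_of_one_lt₀ hp)
  induction N using Nat.strong_induction_on with
  | _ N ih =>
    by_contra hne
    by_cases hpN : p ∣ N
    · obtain ⟨M, rfl⟩ := hpN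
      have hM : 0 < M := Nat.pos_of_mul_pos_left hN
      have h2 : (u ^ M) ^ p = 1 := by rw [← pow_mul, mul_comm, hu]
      have h3 : ‖u ^ M - 1‖ < (p : ℝ)⁻¹ := (norm_pow_sub_one h1 M).trans_lt h
      have h4 : u ^ M = 1 := by
        by_contra hne'
        have h5 := norm_natCast_le_of_pow (h3.trans (inv_lt_one_of_one_lt₀ hp)) h2 hne'
        rw [norm_p'] at h5
        exact absurd h3 (not_lt.2 h5)
      refine hne (ih M ?_ hM h4)
      have := (Fact.out : p.Prime).one_lt
      nlinarith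
    · have h5 := norm_natCast_le_of_pow h1 hu hne
      rw [norm_coprime hpN] at h5
      exact absurd h1 (not_lt.2 h5)

end Pool.Agent.H853.OP
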