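import Pool.Agent.H853.OP.Fam

/-!
# The Mumford-Tate conjecture at one prime and at a positive proportion of the primes
-/

set_option autoImplicit false
set_option linter.unusedSectionVars false

namespace Pool.Agent.H853.OP

open Module Polynomial Pool.Agent.Y114.TF Pool.Agent.Y114.RM Pool.Agent.H853.OS Pool.Agent.H853.CC
  Pool.Agent.H853.G2 Pool.Agent.W522.C

variable {Γ : Type} [Group Γ] [TopologicalSpace Γ] [IsTopologicalGroup Γ] [CompactSpace Γ]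
  {ι : Type} [Fintype ι] [DecidableEq ι] {n : ι → ℕ} {ρ : ∀ (ℓ : ℕ) [Fact ℓ.Prime], Reps Γ n ℓ}

/-- The witness; `g` is an automorphism of a number field `N` which is induced by `φ`. -/
theorem exists_witness_rel {ℓ : ℕ} [Fact ℓ.Prime] (hρ : Conts (ρ ℓ)) (hD : DenseAt ρ ℓ)
    (𝔤 : EndSpace n ℓ) (hMT : LieMumfordTate (ρ ℓ) 𝔤)
    (φ : AlgebraicClosure ℚ_[ℓ] ≃ₐ[ℚ_[ℓ]] AlgebraicClosure ℚ_[ℓ]) (hT : Types 𝔤 φ)
    (N : IntermediateField ℚ ℂ) (hN : FiniteDimensional ℚ N) (g : AG N)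
    (j₀ : N →+* AlgebraicClosure ℚ_[ℓ]) (hg : ∀ x, φ (j₀ x) = j₀ (g x)) :
    ∃ (W : Witness ρ) (τ : AG W.L), W.T = {τ} ∧ Induces τ φ ∧
      W.degree ≤ (2 * (∑ i, n i) ^ 2).factorial ∧
      ∀ (x : N) (y : W.L), (x : ℂ) = y → ((g x : N) : ℂ) = (τ y : W.L) := by
  classical
  choose e he1 he2 using exists_elements hρ hD 𝔤 hMT φ hT
  set P : (((Σ i, Fin (n i)) ⊕ (Σ i, Fin (n i))) × ι) → ℚ[X] := fun x => (e x.1).P x.2 with hPdef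
  have hP0 : ∀ x, P x ≠ 0 := fun x => ne_zero_of_char (e x.1).charpoly x.2
  set L : IntermediateField ℚ ℂ := IntermediateField.adjoin ℚ {z : ℂ | ∃ x, aeval z (P x) = 0}
    with hLdef
  obtain ⟨Q, b, hb, hQ, hQ0, hfield⟩ := exists_SF P hP0
  have hfg : FiniteDimensional ℚ L ∧ @IsGalois ℚ _ L _ (IntermediateField.algebra' L) := by
    have hfield' : L = SF (∏ i, Q i) := hfield
    rw [hfield']
    exact ⟨inferInstance, isGalois_trans _ _ (galSF _)⟩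
  have hfin := hfg.1
  have hgal := hfg.2
  obtain ⟨j, hj1, hj2⟩ := exists_extension N L hN hfin j₀
  obtain ⟨τ, hτ⟩ := exists_restrict L hgal j φ.toRingEquiv
  have hσ : ∀ x, φ (j x) = j (τ x) := hτ
  have hroots : ∀ a i, ∀ z : ℂ, aeval z ((e a).P i) = 0 → z ∈ L := fun a i z hz =>
    IntermediateField.subset_adjoin ℚ _ ⟨(a, i), hz⟩
  refine ⟨⟨(Σ i, Fin (n i)) ⊕ (Σ i, Fin (n i)), inferInstance, e, L, hfin, hgal, {τ}, hroots,
    ?_, ?_⟩, τ, rfl, ⟨j, hσ⟩, ?_, fun x y hxy => ?_⟩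
  · intro τ' hτ' i d hd hdn
    rw [Finset.mem_singleton] at hτ'
    subst hτ'
    obtain ⟨hneat, hS⟩ := he1 (Sum.inl ⟨i, ⟨d, hdn⟩⟩) i d hdn rfl hd
    refine ⟨_, hneat, fun S hS' => ?_⟩
    obtain ⟨S', h1, h2⟩ := stable_push j φ hσ hS'
    rw [← h2]
    exact hS S' h1
  · intro τ' hτ' i hi p hp hpn
    rw [Finset.mem_singleton] at hτ'
    subst hτ'
    have hp1 : p - 1 + 1 = p := Nat.succ_pred_eq_of_pos hp.pos
    have hlt : p - 1 < n i := by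
      have := Nat.le_of_dvd hi hpn
      have := hp.pos
      omega
    obtain ⟨hneat, S, hS, hpS⟩ := he2 (Sum.inr ⟨i, ⟨p - 1, hlt⟩⟩) i (p - 1) hlt rfl
      (by rw [hp1]; exact hp) (by rw [hp1]; exact hpn)
    rw [hp1] at hpS
    obtain ⟨S', h1, h2⟩ := stable_pull j φ hσ hneat.separable.ne_zero (hroots _ i) hS
    exact ⟨_, hneat, S', h1, by rw [h2]; exact hpS⟩
  · change Module.finrank ℚ L ≤ _
    have h4 : Nat.card (AG L) = Module.finrank ℚ L :=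
      @IsGalois.card_aut_eq_finrank ℚ _ L _ (IntermediateField.algebra' L) hfin hgal
    rw [← h4]
    have h5 : FiniteDimensional ℚ (IntermediateField.adjoin ℚ {z : ℂ | ∃ x, aeval z (P x) = 0}) :=
      hfin
    have h6 := gsz_field_le P hP0
    have h7 : ∑ x, (P x).natDegree = 2 * (∑ i, n i) ^ 2 := by
      rw [Fintype.sum_prod_type]
      have h8 : ∀ a, ∑ i, (P (a, i)).natDegree = ∑ i, n i := fun a =>
        Finset.sum_congr rfl fun i _ => natDegree_P (e a) i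
      rw [Finset.sum_congr rfl fun a _ => h8 a, Finset.sum_const, Finset.card_univ,
        Fintype.card_sum, Fintype.card_sigma]
      simp only [Fintype.card_fin, smul_eq_mul]
      ring
    rw [h7] at h6
    exact h6
  · refine hj2 (g x) (τ y) ?_
    rw [← hg, ← hσ, hj1 x y hxy]

variable (ρ) in
/-- One prime: the class of the prime in a number field. -/
theorem class_result (hρ : ∀ (ℓ : ℕ) [Fact ℓ.Prime], Conts (ρ ℓ))
    (𝔤 : ∀ (ℓ : ℕ) [Fact ℓ.Prime], EndSpace n ℓ)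
    (h𝔤 : ∀ (ℓ : ℕ) [Fact ℓ.Prime], Motivic (ρ ℓ) (𝔤 ℓ)) (w : ι → ℤ)
    (hb : MaximalRank ρ 𝔤 ∨ Regular ρ 𝔤 w) {ℓ₀ : ℕ} [Fact ℓ₀.Prime]
    (φ : AlgebraicClosure ℚ_[ℓ₀] ≃ₐ[ℚ_[ℓ₀]] AlgebraicClosure ℚ_[ℓ₀]) (h : KnownAt ρ 𝔤 ℓ₀ φ) :
    HoldsInClassOf ρ 𝔤 (2 * (∑ i, n i) ^ 2).factorial φ ∧
      LowerDensity (goodPrimes ρ 𝔤) (1 / (2 * (∑ i, n i) ^ 2).factorial) := by
  have hd : Different ρ := different_of (hρ ℓ₀) h.dense (𝔤 ℓ₀) h.lie φ h.types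
  obtain ⟨j₀⟩ := exists_embedding (⊥ : IntermediateField ℚ ℂ) inferInstance
    (AlgebraicClosure ℚ_[ℓ₀])
  obtain ⟨g, hg⟩ := exists_restrict (⊥ : IntermediateField ℚ ℂ) inferInstance j₀ φ.toRingEquiv
  obtain ⟨W, τ, hWT, hφ, hB, -⟩ := exists_witness_rel (hρ ℓ₀) h.dense (𝔤 ℓ₀) h.lie φ h.types ⊥
    inferInstance g j₀ hg
  have hpos : 0 < W.degree := by
    have := W.finiteDimensional
    exact Module.finrank_pos
  constructor
  · obtain ⟨bad, hbad⟩ := background_at hb hd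
    obtain ⟨bad', hbad'⟩ := exists_bad W
    refine ⟨W.L, τ, ⟨W.finiteDimensional, W.galois⟩, hB, hφ, bad ∪ bad', fun ℓ _ σ hℓ hσ => ?_⟩
    rw [Finset.mem_union, not_or] at hℓ
    obtain ⟨j, hj⟩ := hσ
    obtain ⟨G, hG⟩ := orbits_of_lift W (τ := τ) (by rw [hWT]; exact Finset.mem_singleton_self τ)
      (hbad' ℓ hℓ.2) ⟨j, σ, hj⟩
    exact local_result (ρ ℓ) (hρ ℓ) (𝔤 ℓ) (h𝔤 ℓ) w (hbad ℓ hℓ.1).1 (hbad ℓ hℓ.1).2 G hG
  · refine (density_witness ρ hρ 𝔤 h𝔤 w hb hd W).le ?_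
    rw [hWT, Finset.card_singleton, Nat.cast_one]
    refine one_div_le_one_div_of_le (by exact_mod_cast hpos) ?_
    exact_mod_cast hB

variable (ρ) in
/-- Primes in all classes. -/
theorem all_classes_result (hρ : ∀ (ℓ : ℕ) [Fact ℓ.Prime], Conts (ρ ℓ))
    (𝔤 : ∀ (ℓ : ℕ) [Fact ℓ.Prime], EndSpace n ℓ)
    (h𝔤 : ∀ (ℓ : ℕ) [Fact ℓ.Prime], Motivic (ρ ℓ) (𝔤 ℓ)) (w : ι → ℤ)
    (hb : MaximalRank ρ 𝔤 ∨ Regular ρ 𝔤 w) (h : KnownInAllClasses ρ 𝔤) :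
    LowerDensity (goodPrimes ρ 𝔤) 1 := by
  have hd : Different ρ := by
    obtain ⟨ℓ, _, φ, -, h1⟩ := h ⊥ ⟨inferInstance, inferInstance⟩ 1
    exact different_of (hρ ℓ) h1.dense (𝔤 ℓ) h1.lie φ h1.types
  obtain ⟨bad, hbad⟩ := background_at hb hd
  let J := {q : (Σ N : IntermediateField ℚ ℂ, AG N) // FiniteGalois q.1}
  have hW : ∀ q : J, ∃ (W : Witness ρ) (τ : AG W.L), W.T = {τ} ∧
      W.degree ≤ (2 * (∑ i, n i) ^ 2).factorial ∧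
        ∀ (x : q.1.1) (y : W.L), (x : ℂ) = y → ((q.1.2 x : q.1.1) : ℂ) = (τ y : W.L) := by
    rintro ⟨⟨N, g⟩, hN⟩
    obtain ⟨ℓ, _, φ, ⟨j₀, hg⟩, h1⟩ := h N hN g
    obtain ⟨W, τ, hWT, -, hB, hag⟩ := exists_witness_rel (hρ ℓ) h1.dense (𝔤 ℓ) h1.lie φ h1.types
      N hN.1 g j₀ hg
    exact ⟨W, τ, hWT, hB, hag⟩
  choose W τ hWT hB hag using hW
  choose bad' hbad' using fun q : J => exists_bad (W q)
  refine (density_familyV' (J := J) (L := fun q => (W q).L) τ (fun q => bad ∪ bad' q)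
    (fun q => (W q).finiteDimensional) (fun q => (W q).galois)
    (B := (2 * (∑ i, n i) ^ 2).factorial) hB
    (fun N hN hG g => ⟨⟨⟨N, g⟩, ⟨hN, hG⟩⟩, hag ⟨⟨N, g⟩, ⟨hN, hG⟩⟩⟩)).mono ?_
  rintro ℓ - ⟨hℓ, q, ht, hlift⟩
  have : Fact ℓ.Prime := ⟨hℓ⟩
  rw [Finset.mem_union, not_or] at ht
  obtain ⟨G, hG⟩ := orbits_of_lift (W q) (τ := τ q)
    (by rw [hWT]; exact Finset.mem_singleton_self _) (hbad' q ℓ ht.2) hlift
  exact ⟨⟨hℓ⟩, local_result (ρ ℓ) (hρ ℓ) (𝔤 ℓ) (h𝔤 ℓ) w (hbad ℓ ht.1).1 (hbad ℓ ht.1).2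
    G hG⟩

end Pool.Agent.H853.OP
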