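import Pool.Agent.H853.OP.Kra

/-!
# Group elements close to one in a given tangent direction
-/

set_option autoImplicit false

namespace Pool.Agent.H853.OP

open Polynomial Module Pool.Agent.H853.OS

section transfer

variable {K Ω : Type*} [Field K] [Field Ω] [Algebra K Ω]

/-- An equivariant bijection of the roots. -/
structure RootMap (f g : K[X]) (E : Ω → Ω) : Prop where
  root : ∀ a, aeval a f = 0 → aeval (E a) g = 0
  inj : ∀ a b, aeval a f = 0 → aeval b f = 0 → E a = E b → a = b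
  surj : ∀ b, aeval b g = 0 → ∃ a, aeval a f = 0 ∧ E a = b
  equiv : ∀ σ : Ω ≃ₐ[K] Ω, ∀ a, aeval a f = 0 → E (σ a) = σ (E a)

theorem aeval_aut (σ : Ω ≃ₐ[K] Ω) {f : K[X]} {a : Ω} (ha : aeval a f = 0) :
    aeval (σ a) f = 0 := by
  have : aeval (σ a) f = σ (aeval a f) := aeval_algHom_apply σ.toAlgHom a f
  rw [this, ha, map_zero]

theorem RootMap.push {f g : K[X]} {E : Ω → Ω} (h : RootMap f g E)
    {G : Subgroup (Ω ≃ₐ[K] Ω)} {S : Finset Ω} (hS : StableRoots G f S) :
    ∃ S', StableRoots G g S' ∧ S'.card = S.card := by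
  classical
  refine ⟨S.image E, ⟨fun x hx => ?_, fun σ hσ x hx => ?_⟩, ?_⟩
  · obtain ⟨a, ha, rfl⟩ := Finset.mem_image.1 hx
    exact h.root a (hS.root a ha)
  · obtain ⟨a, ha, rfl⟩ := Finset.mem_image.1 hx
    rw [← h.equiv σ a (hS.root a ha)]
    exact Finset.mem_image_of_mem _ (hS.stable σ hσ a ha)
  · exact Finset.card_image_of_injOn fun a ha b hb hab =>
      h.inj a b (hS.root a ha) (hS.root b hb) hab

theorem RootMap.pull {f g : K[X]} {E : Ω → Ω} (h : RootMap f g E)
    {G : Subgroup (Ω ≃ₐ[K] Ω)} {S : Finset Ω} (hS : StableRoots G g S) :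
    ∃ S', StableRoots G f S' ∧ S'.card = S.card := by
  classical
  have h1 : ∀ x ∈ S, ∃ a, aeval a f = 0 ∧ E a = x := fun x hx => h.surj x (hS.root x hx)
  choose! r hr hrE using h1
  refine ⟨S.image r, ⟨fun x hx => ?_, fun σ hσ x hx => ?_⟩, ?_⟩
  · obtain ⟨a, ha, rfl⟩ := Finset.mem_image.1 hx
    exact hr a ha
  · obtain ⟨a, ha, rfl⟩ := Finset.mem_image.1 hx
    have h2 : σ (r a) = r (σ a) := by
      refine h.inj _ _ (aeval_aut σ (hr a ha)) (hr _ (hS.stable σ hσ a ha)) ?_
      rw [h.equiv σ _ (hr a ha), hrE a ha, hrE _ (hS.stable σ hσ a ha)]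
    rw [h2]
    exact Finset.mem_image_of_mem _ (hS.stable σ hσ a ha)
  · refine Finset.card_image_of_injOn fun a ha b hb hab => ?_
    have h2 : E (r a) = E (r b) := by rw [hab]
    rwa [hrE a ha, hrE b hb] at h2

end transfer

section near

variable {p : ℕ} [Fact p.Prime] {m : Type} [Fintype m] [DecidableEq m]

theorem aeval_one_add (A B : Matrix m m ℚ_[p]) (t : ℚ_[p]) (hB : B = 1 + t • A)
    (b : PadicAlgCl p) :
    aeval (1 + algebraMap ℚ_[p] (PadicAlgCl p) t * b) B.charpoly =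
      (algebraMap ℚ_[p] (PadicAlgCl p) t) ^ Fintype.card m * aeval b A.charpoly := by
  rw [aeval_charpoly, aeval_charpoly, ← Matrix.det_smul, Matrix.scalar_apply, Matrix.scalar_apply]
  congr 1
  subst hB
  ext i j
  by_cases hij : i = j
  · subst hij
    simp only [Matrix.sub_apply, Matrix.diagonal_apply_eq, Matrix.map_apply,
      Matrix.add_apply, Matrix.one_apply_eq, Matrix.smul_apply, smul_eq_mul, map_add, map_mul,
      map_one]
    ring
  · simp only [Matrix.sub_apply, Matrix.diagonal_apply_ne _ hij,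
      Matrix.map_apply, Matrix.add_apply, Matrix.one_apply_ne hij, Matrix.smul_apply, smul_eq_mul,
      map_add, map_mul, map_zero]
    ring

/-- A matrix `B` such that `(B - 1) / t` is close to a matrix `X` with separable characteristic
polynomial has a neat characteristic polynomial, with the same orbits of automorphisms. -/
theorem near_neat (X : Matrix m m ℚ_[p]) (hX : X.charpoly.Separable) :
    ∃ ε > 0, ∀ (B : Matrix m m ℚ_[p]) (t : ℚ_[p]), t ≠ 0 → ‖t‖ < ε →
      (∀ i j, ‖t⁻¹ * (B - 1) i j - X i j‖ < ε) →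
      Neat (PadicAlgCl p) B.charpoly ∧
        ∃ E : PadicAlgCl p → PadicAlgCl p, RootMap X.charpoly B.charpoly E := by
  classical
  obtain ⟨ε, hε, C, hC, h⟩ := krasner X hX
  have hp : 1 < (p : ℝ) := by exact_mod_cast (Fact.out : p.Prime).one_lt
  have hp0 : 0 < (p : ℝ) := zero_lt_one.trans hp
  refine ⟨min ε ((p : ℝ)⁻¹ / C), lt_min hε (div_pos (inv_pos.2 hp0) hC), fun B t ht htε hB => ?_⟩
  set A : Matrix m m ℚ_[p] := t⁻¹ • (B - 1) with hA
  have hBA : B = 1 + t • A := by
    rw [hA, smul_smul, mul_inv_cancel₀ ht, one_smul]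
    abel
  obtain ⟨e, he, hinj, hsurj, hequiv⟩ := h A fun i j => by
    have h1 := hB i j
    exact h1.trans_le (min_le_left _ _)
  set s : PadicAlgCl p := algebraMap ℚ_[p] (PadicAlgCl p) t with hs
  have hs0 : s ≠ 0 := by
    rw [hs]
    exact (_root_.map_ne_zero _).2 ht
  have hsn : ‖s‖ < (p : ℝ)⁻¹ / C := by
    have h1 : ‖s‖ = ‖t‖ := PadicAlgCl.norm_extends p t
    rw [h1]
    exact htε.trans_le (min_le_right _ _)
  have hroot : ∀ b : PadicAlgCl p, aeval (1 + s * b) B.charpoly = 0 ↔ aeval b A.charpoly = 0 := by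
    intro b
    rw [hs, aeval_one_add A B t hBA b, mul_eq_zero]
    constructor
    · rintro (h1 | h1)
      · exact absurd h1 (pow_ne_zero _ hs0)
      · exact h1
    · exact Or.inr
  have hE : RootMap X.charpoly B.charpoly (fun a : PadicAlgCl p => 1 + s * e a) := by
    refine ⟨fun a ha => (hroot _).2 (he a ha).1, fun a b ha hb hab => ?_, fun c hc => ?_,
      fun σ a ha => ?_⟩
    · have h1 : s * e a = s * e b := add_left_cancel hab
      exact hinj a b ha hb (mul_left_cancel₀ hs0 h1)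
    · have h1 : c = 1 + s * ((c - 1) / s) := by field_simp; ring
      rw [h1, hroot] at hc
      obtain ⟨a, ha, hae⟩ := hsurj _ hc
      exact ⟨a, ha, by rw [hae]; exact h1.symm⟩
    · change 1 + s * e (σ a) = σ (1 + s * e a)
      rw [hequiv σ a ha, map_add, map_mul, map_one, hs, AlgEquiv.commutes]
  refine ⟨⟨?_, ?_⟩, _, hE⟩
  · -- separable
    have hB0 : B.charpoly ≠ 0 := B.charpoly_monic.ne_zero
    have hX0 : X.charpoly ≠ 0 := X.charpoly_monic.ne_zero
    have hsp : (B.charpoly.map (algebraMap ℚ_[p] (PadicAlgCl p))).Splits := IsAlgClosed.splits _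
    have hspX : (X.charpoly.map (algebraMap ℚ_[p] (PadicAlgCl p))).Splits := IsAlgClosed.splits _
    rw [← card_rootSet_eq_natDegree_iff_of_splits hB0 hsp]
    have h1 : Fintype.card (X.charpoly.rootSet (PadicAlgCl p)) = X.charpoly.natDegree :=
      (card_rootSet_eq_natDegree_iff_of_splits hX0 hspX).2 hX
    rw [B.charpoly_natDegree_eq_dim, ← X.charpoly_natDegree_eq_dim, ← h1]
    symm
    refine Fintype.card_of_bijective (f := fun a : X.charpoly.rootSet (PadicAlgCl p) =>
      (⟨1 + s * e a, ?_⟩ : B.charpoly.rootSet (PadicAlgCl p))) ⟨?_, ?_⟩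
    · rw [mem_rootSet]
      exact ⟨hB0, hE.root a (mem_rootSet.1 a.2).2⟩
    · intro a b hab
      exact Subtype.ext (hE.inj a b (mem_rootSet.1 a.2).2 (mem_rootSet.1 b.2).2
        (congrArg Subtype.val hab))
    · rintro ⟨c, hc⟩
      obtain ⟨a, ha, hac⟩ := hE.surj c (mem_rootSet.1 hc).2
      exact ⟨⟨a, mem_rootSet.2 ⟨hX0, ha⟩⟩, Subtype.ext hac⟩
  · -- powers
    intro c c' hc hc' N hN hcc
    obtain ⟨a, ha, rfl⟩ := hE.surj c hc
    obtain ⟨a', ha', rfl⟩ := hE.surj c' hc'
    replace hcc : (1 + s * e a) ^ N = (1 + s * e a') ^ N := hcc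
    change 1 + s * e a = 1 + s * e a'
    have hsmall : ∀ b : PadicAlgCl p, aeval b X.charpoly = 0 → ‖s * e b‖ < (p : ℝ)⁻¹ := by
      intro b hb
      rw [norm_mul]
      calc ‖s‖ * ‖e b‖ ≤ ‖s‖ * C := mul_le_mul_of_nonneg_left (he b hb).2.le (norm_nonneg _)
        _ < (p : ℝ)⁻¹ / C * C := mul_lt_mul_of_pos_right hsn hC
        _ = _ := div_mul_cancel₀ _ hC.ne'
    have hone : ∀ b : PadicAlgCl p, aeval b X.charpoly = 0 → ‖1 + s * e b‖ = 1 := by
      intro b hb
      have h1 : ‖s * e b‖ < ‖(1 : PadicAlgCl p)‖ := by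
        rw [norm_one]
        exact (hsmall b hb).trans (inv_lt_one_of_one_lt₀ hp)
      rw [IsUltrametricDist.norm_add_eq_max_of_norm_ne_norm h1.ne', max_eq_left h1.le, norm_one]
    have hne : (1 + s * e a') ≠ 0 := by
      rw [← norm_pos_iff, hone a' ha']
      exact one_pos
    have h1 : ((1 + s * e a) / (1 + s * e a')) ^ N = 1 := by
      rw [div_pow, hcc, div_self (pow_ne_zero _ hne)]
    have h2 : ‖(1 + s * e a) / (1 + s * e a') - 1‖ < (p : ℝ)⁻¹ := by
      have h3 : (1 + s * e a) / (1 + s * e a') - 1 = (s * e a - s * e a') / (1 + s * e a') := by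
        field_simp
        ring
      rw [h3, norm_div, hone a' ha', div_one]
      exact ultra _ _ (hsmall a ha) (hsmall a' ha')
    have h3 := eq_one_of_pow h2 hN h1
    rwa [div_eq_one_iff_eq hne] at h3

end near

end Pool.Agent.H853.OP
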