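import Pool.Agent.H853.OP.Defs
import Pool.Agent.H853.OS.Sys

/-!
# The Mumford-Tate conjecture at one prime, in terms of the Lie algebra: definitions
-/

set_option autoImplicit false

namespace Pool.Agent.H853.OP

open Module Polynomial Pool.Agent.Y114.TF Pool.Agent.Y114.RM Pool.Agent.H853.OS

/-- The automorphisms of the algebraic closure of `ℚ_ℓ` over `ℚ_ℓ`. -/
abbrev LocalAut (ℓ : ℕ) [Fact ℓ.Prime] : Type :=
  AlgebraicClosure ℚ_[ℓ] ≃ₐ[ℚ_[ℓ]] AlgebraicClosure ℚ_[ℓ]

variable {Γ : Type} [Group Γ] {ι : Type} {n : ι → ℕ}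

section one

variable {ℓ : ℕ} [Fact ℓ.Prime] (ρ : Reps Γ n ℓ) (𝔤 : EndSpace n ℓ)

/-- The Mumford-Tate conjecture at `ℓ` for the Lie algebras: all elements of `𝔤` are tangent vectors of
the image of `Γ`. -/
def LieMumfordTate [DecidableEq ι] : Prop := TangentFor (K := ℚ_[ℓ]) ρ 𝔤

/-- The conditions on the types for the Lie algebra `𝔤` (see `TypesFor`). -/
def Types [DecidableEq ι] (φ : LocalAut ℓ) : Prop :=
  TypesFor n (polys (K := ℚ_[ℓ]) (n := n) 𝔤) φ

end one

section fields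

/-- `L` is a finite Galois extension of `ℚ`. -/
def FiniteGalois (L : IntermediateField ℚ ℂ) : Prop :=
  FiniteDimensional ℚ L ∧ @IsGalois ℚ _ L _ (IntermediateField.algebra' L)

/-- The automorphism `φ` of the algebraic closure of `ℚ_ℓ` induces `τ` on the field `L`, for some
embedding of `L`. -/
def Induces {L : IntermediateField ℚ ℂ} (τ : Aut L) {ℓ : ℕ} [Fact ℓ.Prime] (φ : LocalAut ℓ) :
    Prop :=
  ∃ j : L →+* AlgebraicClosure ℚ_[ℓ], ∀ x, φ (j x) = j (τ x)

end fields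

variable (ρ : ∀ (ℓ : ℕ) [Fact ℓ.Prime], Reps Γ n ℓ)

/-- The elements (Frobenius elements) which have rational characteristic polynomials, independent of
the prime outside a finite set which does not contain `ℓ`, are dense in `Γ`. -/
def DenseAt [TopologicalSpace Γ] (ℓ : ℕ) : Prop :=
  Dense {γ : Γ | ∃ e : Element ρ, ℓ ∉ e.bad ∧ e.γ = γ}

variable (𝔤 : ∀ (ℓ : ℕ) [Fact ℓ.Prime], EndSpace n ℓ)

/-- The Mumford-Tate conjecture for the Lie algebras is known at `ℓ`, and the Lie algebra has enough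
types for the automorphism `φ` of the algebraic closure of `ℚ_ℓ`. -/
structure KnownAt [TopologicalSpace Γ] [DecidableEq ι] (ℓ : ℕ) [Fact ℓ.Prime]
    (φ : LocalAut ℓ) : Prop where
  dense : DenseAt ρ ℓ
  lie : LieMumfordTate (ρ ℓ) (𝔤 ℓ)
  types : Types (𝔤 ℓ) φ

/-- Every automorphism of every finite Galois extension of `ℚ` is induced by an automorphism of the
algebraic closure of some `ℚ_ℓ` as in `KnownAt`. -/
def KnownInAllClasses [TopologicalSpace Γ] [DecidableEq ι] : Prop :=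
  ∀ N : IntermediateField ℚ ℂ, FiniteGalois N → ∀ g : Aut N,
    ∃ (ℓ : ℕ) (_ : Fact ℓ.Prime) (φ : LocalAut ℓ), Induces g φ ∧ KnownAt ρ 𝔤 ℓ φ

/-- The Mumford-Tate conjecture holds at all prime numbers `ℓ` outside a finite set for which `τ` is
induced by an automorphism of the algebraic closure of `ℚ_ℓ` over `ℚ_ℓ`. -/
def HoldsInClass {L : IntermediateField ℚ ℂ} (τ : Aut L) : Prop :=
  ∃ bad : Finset ℕ, ∀ (ℓ : ℕ) [Fact ℓ.Prime] (σ : LocalAut ℓ), ℓ ∉ bad → Induces τ σ →
    MumfordTate (ρ ℓ) (𝔤 ℓ)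

/-- There is a finite Galois extension `L` of `ℚ`, of degree at most `B`, and an automorphism `τ` of `L`
which is induced by `φ`, such that the Mumford-Tate conjecture holds at almost all primes in the class of
`τ` (see `HoldsInClass`). -/
def HoldsInClassOf (B : ℕ) {ℓ₀ : ℕ} [Fact ℓ₀.Prime] (φ : LocalAut ℓ₀) : Prop :=
  ∃ (L : IntermediateField ℚ ℂ) (τ : Aut L), FiniteGalois L ∧ finrank ℚ L ≤ B ∧ Induces τ φ ∧
    HoldsInClass ρ 𝔤 τ

end Pool.Agent.H853.OP
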