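import Pool.Agent.H853.OP.Nea
import Pool.Agent.H853.OP.Sys
import Pool.Agent.H853.OS.Fin

/-!
# Frobenius elements close to one in a given tangent direction
-/

set_option autoImplicit false
set_option linter.unusedSectionVars false

namespace Pool.Agent.H853.OP

open Module Polynomial Pool.Agent.Y114.TF Pool.Agent.Y114.RM Pool.Agent.H853.OS Pool.Agent.H853.CC

variable {Γ : Type} [Group Γ] [TopologicalSpace Γ] {ι : Type} [Fintype ι] [DecidableEq ι]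
  {n : ι → ℕ} {ρ : ∀ (ℓ : ℕ) [Fact ℓ.Prime], Reps Γ n ℓ}

theorem approx {ℓ : ℕ} [Fact ℓ.Prime] (hρ : Conts (ρ ℓ)) (hD : DenseAt ρ ℓ)
    {X : End ℚ_[ℓ] (∀ i, Fin (n i) → ℚ_[ℓ])}
    (hX : ∀ ε : ℝ, 0 < ε → ∃ γ t, Close (K := ℚ_[ℓ]) (ρ ℓ) ε X γ t) {ε : ℝ} (hε : 0 < ε) :
    ∃ (e : Element ρ) (t : ℚ_[ℓ]), ℓ ∉ e.bad ∧ t ≠ 0 ∧ ‖t‖ < ε ∧
      ∀ i a b, ‖t⁻¹ * (LinearMap.toMatrix' (ρ ℓ i e.γ) - 1) a b - block X i a b‖ < ε := by
  obtain ⟨γ, t, ht, htε, hγ⟩ := hX (ε / 2) (half_pos hε)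
  have htn : 0 < ‖t‖ := norm_pos_iff.2 ht
  have h1 : ∀ᶠ γ' in nhds γ, ∀ i a b, ‖(LinearMap.toMatrix' (ρ ℓ i γ')) a b -
      (LinearMap.toMatrix' (ρ ℓ i γ)) a b‖ < ‖t‖ * (ε / 2) := by
    refine Filter.eventually_all.2 fun i => Filter.eventually_all.2 fun a =>
      Filter.eventually_all.2 fun b => ?_
    have h2 : Continuous fun γ' : Γ => (LinearMap.toMatrix' (ρ ℓ i γ')) a b :=
      (hρ i).matrix_elem a b
    have h3 : Filter.Tendsto (fun γ' : Γ => ‖(LinearMap.toMatrix' (ρ ℓ i γ')) a b -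
        (LinearMap.toMatrix' (ρ ℓ i γ)) a b‖) (nhds γ) (nhds 0) := by
      have h4 : Continuous (fun γ' : Γ => ‖(LinearMap.toMatrix' (ρ ℓ i γ')) a b -
        (LinearMap.toMatrix' (ρ ℓ i γ)) a b‖) := (h2.sub continuous_const).norm
      have h5 := h4.tendsto γ
      simp only [sub_self, norm_zero] at h5
      exact h5
    exact h3.eventually_lt_const (by positivity)
  obtain ⟨γ', ⟨e, he, rfl⟩, hγ'⟩ := hD.inter_nhds_nonempty h1
  refine ⟨e, t, he, ht, htε.trans (half_lt_self hε), fun i a b => ?_⟩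
  have h2 := hγ' i a b
  have h3 := hγ i a b
  have h4 : t⁻¹ * (LinearMap.toMatrix' (ρ ℓ i e.γ) - 1) a b - block X i a b =
      t⁻¹ * ((LinearMap.toMatrix' (ρ ℓ i e.γ)) a b - (LinearMap.toMatrix' (ρ ℓ i γ)) a b) +
        (t⁻¹ * (LinearMap.toMatrix' (ρ ℓ i γ) - 1) a b - block X i a b) := by
    simp only [Matrix.sub_apply]
    ring
  rw [h4]
  refine (norm_add_le _ _).trans_lt ?_
  have h5 : ‖t⁻¹ * ((LinearMap.toMatrix' (ρ ℓ i e.γ)) a b -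
      (LinearMap.toMatrix' (ρ ℓ i γ)) a b)‖ < ε / 2 := by
    rw [norm_mul, norm_inv]
    calc ‖t‖⁻¹ * _ < ‖t‖⁻¹ * (‖t‖ * (ε / 2)) := mul_lt_mul_of_pos_left h2 (inv_pos.2 htn)
      _ = ε / 2 := by field_simp
  linarith

theorem neat_of_map {K Ω : Type*} [Field K] [Field Ω] [CharZero Ω] [Algebra ℚ K] [Algebra K Ω]
    [IsAlgClosed Ω] {P : ℚ[X]} (hP0 : P ≠ 0) (hP : Neat Ω (P.map (algebraMap ℚ K))) : Neat ℂ P := by
  obtain ⟨e₁, e₂, -⟩ := exists_pair Ω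
  refine ⟨?_, fun a b ha hb N hN hab => ?_⟩
  · exact (separable_map _).1 hP.separable
  obtain ⟨a', rfl, ha'⟩ := exists_root e₁ hP0 (IsAlgClosed.splits _) ha
  obtain ⟨b', rfl, hb'⟩ := exists_root e₁ hP0 (IsAlgClosed.splits _) hb
  rw [← map_pow, ← map_pow] at hab
  have h1 := e₁.injective hab
  have h2 : e₂ a' ^ N = e₂ b' ^ N := by rw [← map_pow, ← map_pow, h1]
  have h3 := hP.powers (e₂ a') (e₂ b') (by rw [aeval_map_rat, aeval_hom, ha', map_zero])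
    (by rw [aeval_map_rat, aeval_hom, hb', map_zero]) N hN h2
  rw [e₂.injective h3]

/-- The Frobenius element for a tangent vector. -/
theorem pick {ℓ : ℕ} [Fact ℓ.Prime] (hρ : Conts (ρ ℓ)) (hD : DenseAt ρ ℓ)
    {X : End ℚ_[ℓ] (∀ i, Fin (n i) → ℚ_[ℓ])}
    (hX : ∀ ε : ℝ, 0 < ε → ∃ γ t, Close (K := ℚ_[ℓ]) (ρ ℓ) ε X γ t) (i : ι)
    (hsep : (block X i).charpoly.Separable) :
    ∃ e : Element ρ, ℓ ∉ e.bad ∧ Neat ℂ (e.P i) ∧
      ∃ E : PadicAlgCl ℓ → PadicAlgCl ℓ, RootMap (block X i).charpoly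
        ((e.P i).map (algebraMap ℚ ℚ_[ℓ])) E := by
  obtain ⟨ε, hε, h⟩ := near_neat (block X i) hsep
  obtain ⟨e, t, he, ht, htε, hA⟩ := approx hρ hD hX hε
  obtain ⟨hneat, E, hE⟩ := h (LinearMap.toMatrix' (ρ ℓ i e.γ)) t ht htε (hA i)
  have h1 : (LinearMap.toMatrix' (ρ ℓ i e.γ)).charpoly = (e.P i).map (algebraMap ℚ ℚ_[ℓ]) := by
    rw [← e.charpoly ℓ he i, ← LinearMap.charpoly_toMatrix _ (Pi.basisFun ℚ_[ℓ] (Fin (n i))),
      LinearMap.toMatrix_eq_toMatrix']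
  rw [h1] at hneat hE
  exact ⟨e, he, neat_of_map (ne_zero_of_char e.charpoly i) hneat, E, hE⟩

end Pool.Agent.H853.OP
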